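import Pool.Agent.Q28.MD.Main

/-!
# Murre's conjecture (D) from the first half of (B) and injectivity on endomorphisms

`𝒱` is a class of smooth projective geometrically irreducible varieties over the field `k` closed
under products (for example all of them), `C` the Chow groups with rational coefficients (in the
form of their formal properties, `IsChowProj`) and `H` a Weil cohomology theory (`IsWeilProj`).

Let `F` be a class of varieties with Chow-Kunneth decompositions, closed under `X ↦ X × X`. Then
Murre's conjecture (D) holds for all varieties of `F` if and only if the first half of (B),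
`F^0 CH^i(X) = CH^i(X)`, holds for all varieties of `F` and each of them has one Chow-Kunneth
decomposition such that the maps `End(h^a(X)) → End(H^a(X))` are injective for all `a`.
-/

open CategoryTheory AlgebraicGeometry

set_option autoImplicit false

universe u v w

namespace Pool.Agent.Results.MP_583472_ag.DFromBAndInjectivity

open Pool.Agent.H914 Pool.Agent.W492.BB Pool.Agent.TH133 Pool.Agent.Q28.MD

/-- Murre's conjecture (D) is equivalent to the first half of (B) together with the injectivity of
`End(h^a(X)) → End(H^a(X))` for one decomposition of each variety. -/
theorem result {k : Type u} [Field k] {𝒱 : VarClass k} (C : TheoryData.{u, v, 0} 𝒱 ℚ)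
    [IsChowProj C] {K : Type w} [Field K] (H : WeilTheoryData.{u, v, w} C K) [IsWeilProj H]
    (F : 𝒱.Obj → Prop) (hF : ∀ X, F X → F (X.prod X)) (hCK : ∀ X, F X → ∃ π, IsCK H X π) :
    (∀ X, F X → MurreD H X) ↔
      ∀ X, F X → MurreB0 H X ∧ ∃ π, IsCK H X π ∧ FaithfulOnParts H π :=
  ((main C H).2.2 F hF hCK).2

end Pool.Agent.Results.MP_583472_ag.DFromBAndInjectivity
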