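import Pool.Agent.Q187.MC.ConvD

/-!
# Murre's conjecture (D) for products of curves and algebraically trivial cycles

For every `d` we show that Murre's conjecture (D) holds for all products of at most `d` complex
curves (and all their Chow-Kunneth decompositions) if and only if, for every curve `T` and all `j`
with `2 ≤ j ≤ d / 2`, the Abel-Jacobi map is injective on the algebraically trivial classes in
`CH^j` of the motive `h^1(T)^{⊗(2 j - 1)}`; and that this implies (B) for products of at most
`d + 1` curves.
-/

open CategoryTheory AlgebraicGeometry

universe u v w

namespace Pool.Agent.Results.MP_583472_ag.ProductsOfCurves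

open Pool.Agent.H914 Pool.Agent.H914.VarClass Pool.Agent.H914.VarClass.Obj Pool.Agent.W492.BB
  Pool.Agent.TH133 Pool.Agent.Q187.AJS Pool.Agent.Q187.BCS Pool.Agent.Q187.MCS

/-- **Murre's conjecture (D) for products of at most `d` curves.** Let `C` be the Chow theory, `H` a
Weil cohomology theory and `N` the family of the kernels of the Abel-Jacobi maps on a class of
smooth projective varieties closed under products. Assume the theorem of Bloch and Srinivas on
families of cycles over curves (`FibreProperty`), that algebraically trivial classes in the kernel
of the Abel-Jacobi map are given by families over curves acting as zero on `H^1` (`SpreadProperty`: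
Poincare's reducibility theorem), that any two curves are dominated by a third one, and that
homologically trivial self-correspondences of products of curves act nilpotently on the Chow groups
(Kimura); all this is true for complex varieties. For every `d` the following are equivalent.

1. (D) holds for all products of at most `d` curves, all their Chow-Kunneth decompositions and all
  codimensions.
2. Every product of at most `d` curves has one Chow-Kunneth decomposition for which (D) holds.
3. For all curves `T` and all `j ≥ 1` with `2 j ≤ d`, homologically trivial classes in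
  `CH^j(h^1(T)^{⊗ 2 j})` are zero.
4. For all curves `T` and all `j ≥ 2` with `2 j ≤ d`, the Abel-Jacobi map is injective on the
  algebraically trivial classes in `CH^j(h^1(T)^{⊗(2 j - 1)})`.

They imply (B) for all products of at most `d + 1` curves and all their Chow-Kunneth
decompositions. For example (D) for all products of at most five curves is equivalent to the
injectivity of the Abel-Jacobi map on the algebraically trivial classes in
`CH^2(h^1(T) ⊗ h^1(T) ⊗ h^1(T))` for all curves `T`. -/
theorem result {k : Type u} [Field k] {𝒱 : VarClass k} {C : TheoryData.{u, v, 0} 𝒱 ℚ}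
    [IsChowProj C] {K : Type w} [Field K] {H : WeilTheoryData.{u, v, w} C K} [IsWeilProj H]
    {N : Fam C} (hN : IsAbelJacobiKernel C H N) (hF : FibreProperty C)
    (hG : SpreadProperty C H N) (hc : CommonCovers C)
    (hK : ∀ Z : 𝒱.Obj, IsProductOfCurves Z → ActsNilpotently C H Z) (d : ℕ) :
    List.TFAE [
      ∀ Z : 𝒱.Obj, IsProductOfCurves Z → Z.dim ≤ d →
        ∀ π, IsChowKunneth C H Z π → SatisfiesD C H π,
      ∀ Z : 𝒱.Obj, IsProductOfCurves Z → Z.dim ≤ d →
        ∃ π, IsChowKunneth C H Z π ∧ SatisfiesD C H π,
      ∀ j : ℕ, 1 ≤ j → 2 * j ≤ d → VanishingInTheMiddle C H j,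
      ∀ j : ℕ, 2 ≤ j → 2 * j ≤ d → InjectiveAbelJacobi C H N j] ∧
    ((∀ Z : 𝒱.Obj, IsProductOfCurves Z → Z.dim ≤ d →
        ∀ π, IsChowKunneth C H Z π → SatisfiesD C H π) →
      ∀ Z : 𝒱.Obj, IsProductOfCurves Z → Z.dim ≤ d + 1 →
        ∀ π, IsChowKunneth C H Z π → SatisfiesB C π) :=
  main_d' hN hF hG hc hK d

end Pool.Agent.Results.MP_583472_ag.ProductsOfCurves
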