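import Pool.Agent.Q28.HJ.Null

/-!
# Murre's conjecture (D) for products of hypersurfaces

Let `X_1, …, X_r` be smooth complex hypersurfaces of dimensions `n_j`, of any degrees. The motive of
`X_1 × ⋯ × X_r` is the direct sum of Tate twists of tensor products `M = M_{j_1} ⊗ ⋯ ⊗ M_{j_s}` of
primitive motives, and `M` has cohomology only in degree `N = n_{j_1} + ⋯ + n_{j_s}`. So for these
varieties the conjecture (D) of Murre says that `A^i(M)_hom = 0` for `2 i = N`, and (B) says that
`A^i(M) = 0` for `2 i < N`.

We prove that both hold, for all products of hypersurfaces, as soon as the homologically trivial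
cycles of codimension `n / 2` vanish on the hypersurfaces

  `W : f(x_0, …, x_(a+1)) + y_1^d + y_2^d + … + y_(2k)^d = 0`, `a ≤ ω(n)`,

of even dimension `n` and degree `d`, for a set of pairs `(n, d)` with arbitrarily large `n` and
arbitrarily divisible `d`; here `ω` is any function which tends to infinity, however slowly. Then
moreover all homologically trivial morphisms between the motives `M ⊗ L^k` of the same weight are
zero.
-/

open CategoryTheory MonoidalCategory

universe v u w

namespace Pool.Agent.Results.MP_583472_ag.ProductsOfHypersurfaces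

open Pool.Agent.Q28.HJ

/-- **Murre's conjecture (D) for products of hypersurfaces.** Let `T` be the Chow motives and the
Chow groups of complex hypersurfaces (`hT`: known facts), `S` a set of pairs `(n, d)` which contains,
for all `N` and `D`, a pair with `n ≥ N` even and `D ∣ d`, and `ω : ℕ → ℕ` a function which tends to
infinity. The following statements are equivalent.

1. The homologically trivial cycles of codimension `dim W / 2` vanish in `A^*(W)`, for all `W` of
  even dimension with `(dim W, deg W) ∈ S` which are iterated suspensions of smooth hypersurfaces `X`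
  with `dim X ≤ ω (dim W)`.
2. For all smooth hypersurfaces `X` the homologically trivial cycles of codimension `dim X / 2`
  vanish (if `dim X` is even), and `A^i(X) = ℚ h^i` for `i < dim X / 2`.
3. (B) and (D) for products of hypersurfaces: for all tensor products `M` of primitive motives, of
  weight `N`, `A^i(M) = 0` for `2 i < N`, and `A^i(M)_hom = 0` for `2 i = N`.
4. For all tensor products `M`, `N` of primitive motives, of weights `a`, `b`, and
  `a + 2 k = b + 2 l`, all homologically trivial morphisms `M ⊗ L^k → N ⊗ L^l` are zero. -/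
theorem result {𝓜 : Type u} [Category.{v} 𝓜] [Preadditive 𝓜] [MonoidalCategory 𝓜]
    [BraidedCategory 𝓜] [MonoidalPreadditive 𝓜] {T : NullData.{v, u, w} 𝓜} (hT : T.Facts)
    (S : Set (ℕ × ℕ)) (hS : EvenCofinal S) (ω : ℕ → ℕ)
    (hω : Filter.Tendsto ω Filter.atTop Filter.atTop) :
    [∀ X W : T.Hyp, T.Smooth X → Relation.ReflTransGen T.Susp X W →
        (T.dim W, T.deg W) ∈ S → T.dim X ≤ ω (T.dim W) → T.MiddleInjective W,
      ∀ X : T.Hyp, T.Smooth X → T.MiddleInjective X ∧ ∀ i, 2 * i < T.dim X → T.Hartshorne X i,
      ∀ (N : ℕ) (M : 𝓜), T.IsProd N M → (∀ i, 2 * i < N → ∀ f : pow T.L i ⟶ M, f = 0) ∧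
        ∀ i, 2 * i = N → ∀ f : pow T.L i ⟶ M, T.null f → f = 0,
      ∀ (a b : ℕ) (M N : 𝓜), T.IsProd a M → T.IsProd b N → ∀ k l, a + 2 * k = b + 2 * l →
        ∀ f : M ⊗ pow T.L k ⟶ N ⊗ pow T.L l, T.null f → f = 0].TFAE :=
  NullData.final hT S hS ω hω

end Pool.Agent.Results.MP_583472_ag.ProductsOfHypersurfaces
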