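import Pool.Agent.Q28.MD.Main

/-!
# Murre's conjecture (D) from one group on the square

`𝒱` is a class of smooth projective geometrically irreducible varieties over the field `k` closed
under products (for example all of them), `C` the Chow groups with rational coefficients (in the
form of their formal properties, `IsChowProj`) and `H` a Weil cohomology theory (`IsWeilProj`).

(1) Let `π` be a Chow-Kunneth decomposition of `X`. Murre's condition (D) for the decomposition
`π^t × π` of `X × X`, in the one codimension `dim X`, holds if and only if homologically trivial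
self-correspondences strictly lower the weights of `π`, and if and only if there are no non-zero
morphisms `h^a(X) → h^b(X)` for `a < b` and `End(h^a(X)) → End(H^a(X))` is injective for all `a`.
(2) In this case (D), (C) and the first half of (B) hold for `X`, in all codimensions and for all
decompositions, (1) holds for all decompositions of `X`, and all compositions of `2 dim X + 1`
homologically trivial self-correspondences vanish.
(3) For a class of varieties with Chow-Kunneth decompositions, closed under `X ↦ X × X`, (D) for all
`X` is equivalent to (1) for one decomposition of each `X`.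
(4) If (D) holds for all decompositions of `X` then the phantom summands of the `h^a(X)` act as zero
on `CH(X)`. Conversely, if no homologically trivial self-correspondence acts as a non-zero
idempotent on `CH^i(X)`, then (D) in codimension `i` for one decomposition implies it for all.
-/

open CategoryTheory AlgebraicGeometry

set_option autoImplicit false

universe u v w

namespace Pool.Agent.Results.MP_583472_ag.SquareCriterion

open Pool.Agent.H914 Pool.Agent.W492.BB Pool.Agent.TH133 Pool.Agent.Q28.MD

/-- Murre's conjecture (D) and the one group `CH^(dim X)(X × X)`. -/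
theorem result {k : Type u} [Field k] {𝒱 : VarClass k} (C : TheoryData.{u, v, 0} 𝒱 ℚ)
    [IsChowProj C] {K : Type w} [Field K] (H : WeilTheoryData.{u, v, w} C K) [IsWeilProj H] :
    (∀ (X : 𝒱.Obj) (π : ℕ → C.A (X.prod X)), IsCK H X π →
      (SatisfiesDAt H (squareCK π) X.dim ↔ KernelLowers H π) ∧
      (SatisfiesDAt H (squareCK π) X.dim ↔ NeverRaises π ∧ FaithfulOnParts H π) ∧
      (SatisfiesDAt H (squareCK π) X.dim → MurreD H X ∧ MurreB0 H X ∧ MurreC H X ∧
        (∀ π', IsCK H X π' → SatisfiesDAt H (squareCK π') X.dim) ∧
        NilpotentOfIndex H X (2 * X.dim + 1))) ∧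
    (∀ F : 𝒱.Obj → Prop, (∀ X, F X → F (X.prod X)) → (∀ X, F X → ∃ π, IsCK H X π) →
      ((∀ X, F X → MurreD H X) ↔
        ∀ X, F X → ∃ π, IsCK H X π ∧ SatisfiesDAt H (squareCK π) X.dim)) ∧
    (∀ X : 𝒱.Obj, (MurreD H X → ∀ π, IsCK H X π → PhantomsActTrivially H π) ∧
      ∀ i : ℕ, NoIdempotentActionAt H X i → ∀ π π', IsCK H X π → IsCK H X π' →
        SatisfiesDAt H π i → SatisfiesDAt H π' i) :=
  ⟨(main C H).1, fun F hF hCK => ((main C H).2.2 F hF hCK).1, (main C H).2.1⟩

end Pool.Agent.Results.MP_583472_ag.SquareCriterion
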